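import Mathlib
import Pool.Agent.Q236.CentroidMoves

set_option autoImplicit false

namespace Pool.Agent.Results.MP_06c496_co.ReachRegular

open Relation Complex
open Pool.Agent.Q236.CentroidMoves (M NStep cr rk cr_mul connect connect3 cr_vec)

/-- The vertex centroid of the polygon with the vertices `v 0, …, v (n-1)`; the plane is `ℂ`. -/
noncomputable def centroid {n : ℕ} (v : Fin n → ℂ) : ℂ := (∑ i, v i) / n

/-- `w` arises from `v` by a vertex-centroid move: some vertex `v i`, different from the centroid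
`m`, is replaced by a point `m + t (v i - m)` of the line through `v i` and `m`. -/
def IsMove {n : ℕ} (v w : Fin n → ℂ) : Prop :=
  ∃ i, v i ≠ centroid v ∧ ∃ t : ℝ,
    w = Function.update v i (centroid v + t * (v i - centroid v))

/-- The edge joining `v i` to the next vertex (in the cyclic order). -/
def edge {n : ℕ} (v : Fin n → ℂ) (i : Fin n) : Set ℂ := segment ℝ (v i) (v (finRotate n i))

/-- A simple polygon: the vertices are distinct, and two different edges have a common point only
if they are consecutive, and then only the common vertex. -/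
def IsSimple {n : ℕ} (v : Fin n → ℂ) : Prop :=
  Function.Injective v ∧ ∀ i j, i ≠ j → ∀ x ∈ edge v i ∩ edge v j,
    (j = finRotate n i ∧ x = v j) ∨ (i = finRotate n j ∧ x = v i)

/-- A regular polygon: the vertices are `c + z ζ^k` (or `c + z ζ^(-k)`), `ζ = exp (2πi/n)`,
with `z ≠ 0`. -/
def IsRegular {n : ℕ} (w : Fin n → ℂ) : Prop :=
  ∃ c z : ℂ, z ≠ 0 ∧
    ((∀ k : Fin n, w k = c + z * exp (2 * Real.pi * I / n) ^ (k : ℕ)) ∨
     (∀ k : Fin n, w k = c + z * (exp (2 * Real.pi * I / n))⁻¹ ^ (k : ℕ)))

/-! ### centred coordinates -/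

/-- centred coordinates -/
noncomputable def cent {n : ℕ} (v : Fin n → ℂ) : Fin n → ℂ := fun i => v i - centroid v

theorem sum_cent {n : ℕ} (hn : n ≠ 0) (v : Fin n → ℂ) : ∑ i, cent v i = 0 := by
  have hn' : (n : ℂ) ≠ 0 := by exact_mod_cast hn
  unfold cent centroid
  rw [Finset.sum_sub_distrib]
  simp
  field_simp
  ring

theorem sum_update {n : ℕ} (v : Fin n → ℂ) (i : Fin n) (x : ℂ) :
    ∑ k, Function.update v i x k = ∑ k, v k + (x - v i) := by
  have h : ∀ k, Function.update v i x k = v k + (if k = i then x - v i else 0) := by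
    intro k
    by_cases h : k = i
    · subst h; simp
    · simp [h]
  rw [Finset.sum_congr rfl (fun k _ => h k), Finset.sum_add_distrib]
  simp

theorem simulate_step {n : ℕ} (hn : n ≠ 0) (v : Fin n → ℂ) (b : Fin n → ℂ)
    (h : NStep (cent v) b) : ∃ w, ReflTransGen IsMove v w ∧ cent w = b := by
  have hn' : (n : ℂ) ≠ 0 := by exact_mod_cast hn
  obtain ⟨i, s, rfl⟩ := h
  by_cases h0 : v i = centroid v
  · refine ⟨v, ReflTransGen.refl, ?_⟩
    funext k
    unfold M
    have hi : cent v i = 0 := by unfold cent; rw [h0, sub_self]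
    by_cases hk : k = i
    · subst hk; simp [hi]
    · simp [hk, hi]
  · set w := Function.update v i (centroid v + ((1 + n * s : ℝ) : ℂ) * (v i - centroid v)) with hw
    refine ⟨w, ReflTransGen.single ⟨i, h0, _, hw⟩, ?_⟩
    have hc : centroid w = centroid v + s * (v i - centroid v) := by
      unfold centroid at hw ⊢
      rw [hw, sum_update]
      push_cast
      field_simp
      ring
    funext k
    unfold cent M
    rw [hc]
    by_cases hk : k = i
    · subst hk
      rw [hw]
      simp
      ring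
    · rw [hw]
      simp [hk]
      ring

theorem simulate {n : ℕ} (hn : n ≠ 0) (v : Fin n → ℂ) (b : Fin n → ℂ)
    (h : ReflTransGen NStep (cent v) b) : ∃ w, ReflTransGen IsMove v w ∧ cent w = b := by
  induction h with
  | refl => exact ⟨v, ReflTransGen.refl, rfl⟩
  | tail _ h ih =>
    obtain ⟨w, hw, hc⟩ := ih
    rw [← hc] at h
    obtain ⟨w', hw', hc'⟩ := simulate_step hn w _ h
    exact ⟨w', hw.trans hw', hc'⟩

theorem rk_of_not_collinear {n : ℕ} (v : Fin n → ℂ) (h : ¬ Collinear ℝ (Set.range v)) :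
    rk (cent v) := by
  by_contra hr
  apply h
  unfold rk at hr
  push Not at hr
  by_cases h0 : ∀ i, cent v i = 0
  · rw [collinear_iff_exists_forall_eq_smul_vadd]
    refine ⟨centroid v, 0, ?_⟩
    rintro _ ⟨i, rfl⟩
    refine ⟨0, ?_⟩
    have := h0 i
    unfold cent at this
    simp
    linear_combination this
  · push Not at h0
    obtain ⟨j, hj⟩ := h0
    rw [collinear_iff_exists_forall_eq_smul_vadd]
    refine ⟨centroid v, cent v j, ?_⟩
    rintro _ ⟨i, rfl⟩
    obtain ⟨e, he⟩ := Pool.Agent.Q236.CentroidMoves.real_of_cr hj (hr j i)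
    refine ⟨e, ?_⟩
    rw [vadd_eq_add, Complex.real_smul, ← he]
    unfold cent
    ring

/-- a simple polygon is not contained in a line -/
theorem not_collinear_of_simple {n : ℕ} (hn : 3 ≤ n) (v : Fin n → ℂ) (hv : IsSimple v) :
    ¬ Collinear ℝ (Set.range v) := by
  intro hcol
  have : NeZero n := ⟨by omega⟩
  obtain ⟨hinj, hsimp⟩ := hv
  rw [collinear_iff_exists_forall_eq_smul_vadd] at hcol
  obtain ⟨p0, u, hu⟩ := hcol
  have hex : ∀ i, ∃ t : ℝ, v i = t • u + p0 := fun i => hu (v i) ⟨i, rfl⟩
  choose t ht using hex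
  have htinj : ∀ i j, t i = t j → i = j := by
    intro i j h
    apply hinj
    rw [ht, ht, h]
  obtain ⟨l, hl⟩ := Finite.exists_max t
  -- the neighbours
  obtain ⟨k, hk⟩ : ∃ k, finRotate n k = l := (finRotate n).surjective l
  set m := finRotate n l with hm
  have hkl : k ≠ l := by
    rintro rfl
    rw [finRotate_apply] at hk
    have h1 := congrArg Fin.val (add_left_cancel (a := k) (b := (1 : Fin n)) (c := 0) (by rw [hk, add_zero]))
    rw [Fin.val_one', Fin.val_zero] at h1
    rw [Nat.mod_eq_of_lt (by omega)] at h1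
    omega
  have hml : m ≠ l := by
    intro h
    rw [hm, finRotate_apply] at h
    have h1 := congrArg Fin.val (add_left_cancel (a := l) (b := (1 : Fin n)) (c := 0) (by rw [h, add_zero]))
    rw [Fin.val_one', Fin.val_zero] at h1
    rw [Nat.mod_eq_of_lt (by omega)] at h1
    omega
  have hkm : k ≠ m := by
    intro h
    rw [hm, ← hk, finRotate_apply, finRotate_apply, add_assoc] at h
    have h1 := congrArg Fin.val (add_left_cancel (a := k) (b := (1 + 1 : Fin n)) (c := 0)
      (by rw [← h, add_zero]))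
    rw [Fin.val_add, Fin.val_one', Fin.val_zero, Nat.mod_eq_of_lt (show 1 < n by omega),
      Nat.mod_eq_of_lt (by omega)] at h1
    omega
  have hk1 : t k < t l := lt_of_le_of_ne (hl k) (fun h => hkl (htinj _ _ h))
  have hm1 : t m < t l := lt_of_le_of_ne (hl m) (fun h => hml (htinj _ _ h))
  -- points between
  have hseg : ∀ a b c : Fin n, t a < t b → t b < t c → v b ∈ segment ℝ (v a) (v c) := by
    intro a b c hab hbc
    have hd : 0 < t c - t a := by linarith
    refine ⟨(t c - t b) / (t c - t a), (t b - t a) / (t c - t a), ?_, ?_, ?_, ?_⟩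
    · apply div_nonneg <;> linarith
    · apply div_nonneg <;> linarith
    · field_simp; ring
    · rw [ht a, ht b, ht c]
      simp only [Complex.real_smul]
      push_cast
      have : ((t c : ℂ) - t a) ≠ 0 := by exact_mod_cast hd.ne'
      field_simp
      ring
  rcases lt_trichotomy (t k) (t m) with h | h | h
  · -- v m lies on the edge from k to l
    have h1 : v m ∈ edge v k := by
      unfold edge
      rw [hk]
      exact hseg k m l h hm1
    have h2 : v m ∈ edge v l := by
      unfold edge
      exact right_mem_segment ℝ _ _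
    rcases hsimp k l hkl _ ⟨h1, h2⟩ with ⟨-, h3⟩ | ⟨-, h3⟩
    · exact hml (hinj h3)
    · exact hkm (hinj h3).symm
  · exact hkm (htinj _ _ h)
  · have h1 : v k ∈ edge v k := by
      unfold edge
      exact left_mem_segment ℝ _ _
    have h2 : v k ∈ edge v l := by
      unfold edge
      rw [segment_symm]
      exact hseg m k l h hk1
    rcases hsimp k l hkl _ ⟨h1, h2⟩ with ⟨-, h3⟩ | ⟨h4, h3⟩
    · exact hkl (hinj h3)
    · exact hkm h4

/-! ### the regular polygon -/

theorem sum_roots {n : ℕ} (hn : 2 ≤ n) (z : ℂ) :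
    ∑ k : Fin n, z * exp (2 * Real.pi * I / n) ^ (k : ℕ) = 0 := by
  rw [← Finset.mul_sum, Fin.sum_univ_eq_sum_range (fun k => exp (2 * Real.pi * I / n) ^ k) n,
    (Complex.isPrimitiveRoot_exp n (by omega)).geom_sum_eq_zero (by omega), mul_zero]

theorem sum_roots_inv {n : ℕ} (hn : 2 ≤ n) (z : ℂ) :
    ∑ k : Fin n, z * (exp (2 * Real.pi * I / n))⁻¹ ^ (k : ℕ) = 0 := by
  rw [← Finset.mul_sum, Fin.sum_univ_eq_sum_range (fun k => (exp (2 * Real.pi * I / n))⁻¹ ^ k) n,
    (Complex.isPrimitiveRoot_exp n (by omega)).inv.geom_sum_eq_zero (by omega), mul_zero]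

theorem sin_pos' {n : ℕ} (hn : 3 ≤ n) : 0 < Real.sin (2 * Real.pi / n) := by
  have hn' : (3 : ℝ) ≤ n := by exact_mod_cast hn
  apply Real.sin_pos_of_pos_of_lt_pi
  · positivity
  · rw [div_lt_iff₀ (by linarith)]
    nlinarith [Real.pi_pos]

theorem exp_im {n : ℕ} : (exp (2 * Real.pi * I / n)).im = Real.sin (2 * Real.pi / n) := by
  have : (2 * Real.pi * I / n : ℂ) = ((2 * Real.pi / n : ℝ) : ℂ) * I := by
    push_cast; ring
  rw [this, Complex.exp_ofReal_mul_I_im]

theorem exp_inv_im {n : ℕ} : ((exp (2 * Real.pi * I / n))⁻¹).im = - Real.sin (2 * Real.pi / n) := by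
  have : (2 * Real.pi * I / n : ℂ) = ((2 * Real.pi / n : ℝ) : ℂ) * I := by
    push_cast; ring
  rw [this, ← Complex.exp_neg, ← neg_mul, ← Complex.ofReal_neg, Complex.exp_ofReal_mul_I_im,
    Real.sin_neg]

theorem centroid_of_cent {n : ℕ} (w b : Fin n → ℂ) (h : cent w = b) (k : Fin n) :
    w k = centroid w + b k := by
  rw [← h]; unfold cent; ring

/-- the general form: arbitrary polygons not contained in a line -/
theorem main {n : ℕ} (hn : 3 ≤ n) (v : Fin n → ℂ) (hv : ¬ Collinear ℝ (Set.range v)) :
    ∃ w, ReflTransGen IsMove v w ∧ IsRegular w := by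
  have hr := rk_of_not_collinear v hv
  rcases Nat.lt_or_ge n 4 with h4 | h4
  · -- triangles
    obtain rfl : n = 3 := by omega
    have hs := sum_cent (n := 3) (by norm_num) v
    set a := cent v with ha
    have h01 : cr (a 0) (a 1) ≠ 0 := by
      intro h0
      obtain ⟨i, j, hij⟩ := hr
      apply hij
      rw [Fin.sum_univ_three] at hs
      have h2 : a 2 = -(a 0) - a 1 := by linear_combination hs
      have e1 : cr (a 1) (a 0) = 0 := by
        rw [Pool.Agent.Q236.CentroidMoves.cr_comm, h0, neg_zero]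
      have e2 : cr (a 0) (a 2) = 0 := by
        rw [h2]
        have : cr (a 0) (-(a 0) - a 1) = - cr (a 0) (a 1) := by
          simp only [cr, Complex.sub_re, Complex.sub_im, Complex.neg_re, Complex.neg_im]; ring
        rw [this, h0, neg_zero]
      have e3 : cr (a 1) (a 2) = 0 := by
        rw [h2]
        have : cr (a 1) (-(a 0) - a 1) = cr (a 0) (a 1) := by
          simp only [cr, Complex.sub_re, Complex.sub_im, Complex.neg_re, Complex.neg_im]; ring
        rw [this, h0]
      have e4 : cr (a 2) (a 0) = 0 := by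
        rw [Pool.Agent.Q236.CentroidMoves.cr_comm, e2, neg_zero]
      have e5 : cr (a 2) (a 1) = 0 := by
        rw [Pool.Agent.Q236.CentroidMoves.cr_comm, e3, neg_zero]
      have e6 : ∀ z : ℂ, cr z z = 0 := by intro z; simp only [cr]; ring
      fin_cases i <;> fin_cases j <;> simp [h0, e1, e2, e3, e4, e5, e6]
    have hsin := sin_pos' (n := 3) le_rfl
    set σ := Real.sin (2 * Real.pi / (3 : ℕ)) with hσ
    rcases lt_or_gt_of_ne h01 with hneg | hpos
    · obtain ⟨r, hr0, hr1⟩ : ∃ r : ℝ, r ≠ 0 ∧ r ^ 2 * σ = - cr (a 0) (a 1) := by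
        refine ⟨√(- cr (a 0) (a 1) / σ), ?_, ?_⟩
        · apply (Real.sqrt_pos.2 _).ne'
          apply div_pos _ hsin
          linarith
        · rw [Real.sq_sqrt (by apply div_nonneg _ hsin.le; linarith), div_mul_cancel₀ _ hsin.ne']
      obtain ⟨w, hw, hc⟩ := simulate (by norm_num) v
        (fun k => (r : ℂ) * (exp (2 * Real.pi * I / (3 : ℕ)))⁻¹ ^ (k : ℕ))
        (connect3 _ _ hs (sum_roots_inv (by norm_num) _) h01 (by
          have e : cr ((r : ℂ) * (exp (2 * Real.pi * I / (3 : ℕ)))⁻¹ ^ ((0 : Fin 3) : ℕ))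
              ((r : ℂ) * (exp (2 * Real.pi * I / (3 : ℕ)))⁻¹ ^ ((1 : Fin 3) : ℕ)) =
              r ^ 2 * ((exp (2 * Real.pi * I / (3 : ℕ)))⁻¹).im := by
            have h1 : (((1 : Fin 3) : ℕ)) = 1 := rfl
            have h0 : (((0 : Fin 3) : ℕ)) = 0 := rfl
            rw [h0, h1, pow_zero, pow_one, mul_one]
            unfold cr
            rw [Complex.ofReal_re, Complex.ofReal_im, Complex.im_ofReal_mul]
            ring
          rw [e, exp_inv_im]
          change r ^ 2 * -σ = cr (a 0) (a 1)
          linarith))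
      exact ⟨w, hw, centroid w, r, by exact_mod_cast hr0, Or.inr (centroid_of_cent w _ hc)⟩
    · obtain ⟨r, hr0, hr1⟩ : ∃ r : ℝ, r ≠ 0 ∧ r ^ 2 * σ = cr (a 0) (a 1) := by
        refine ⟨√(cr (a 0) (a 1) / σ), ?_, ?_⟩
        · apply (Real.sqrt_pos.2 _).ne'
          apply div_pos _ hsin
          linarith
        · rw [Real.sq_sqrt (by apply div_nonneg _ hsin.le; linarith), div_mul_cancel₀ _ hsin.ne']
      obtain ⟨w, hw, hc⟩ := simulate (by norm_num) v
        (fun k => (r : ℂ) * (exp (2 * Real.pi * I / (3 : ℕ))) ^ (k : ℕ))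
        (connect3 _ _ hs (sum_roots (by norm_num) _) h01 (by
          have e : cr ((r : ℂ) * (exp (2 * Real.pi * I / (3 : ℕ))) ^ ((0 : Fin 3) : ℕ))
              ((r : ℂ) * (exp (2 * Real.pi * I / (3 : ℕ))) ^ ((1 : Fin 3) : ℕ)) =
              r ^ 2 * ((exp (2 * Real.pi * I / (3 : ℕ)))).im := by
            have h1 : (((1 : Fin 3) : ℕ)) = 1 := rfl
            have h0 : (((0 : Fin 3) : ℕ)) = 0 := rfl
            rw [h0, h1, pow_zero, pow_one, mul_one]
            unfold cr
            rw [Complex.ofReal_re, Complex.ofReal_im, Complex.im_ofReal_mul]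
            ring
          rw [e, exp_im]
          change r ^ 2 * σ = cr (a 0) (a 1)
          linarith))
      exact ⟨w, hw, centroid w, r, by exact_mod_cast hr0, Or.inl (centroid_of_cent w _ hc)⟩
  · -- at least four vertices
    obtain ⟨w, hw, hc⟩ := simulate (by omega) v
      (fun k => (1 : ℂ) * (exp (2 * Real.pi * I / n)) ^ (k : ℕ))
      (connect (by simpa using h4) _ _ (sum_cent (by omega) v) (sum_roots (by omega) _) hr (by
        refine ⟨⟨0, by omega⟩, ⟨1, by omega⟩, ?_⟩
        simp only [pow_zero, pow_one, one_mul]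
        unfold cr
        rw [Complex.one_re, Complex.one_im, exp_im]
        have := sin_pos' hn
        linarith))
    exact ⟨w, hw, centroid w, 1, one_ne_zero, Or.inl (centroid_of_cent w _ hc)⟩

/-- **Every polygon can be made regular by vertex-centroid moves.**
(1) Every simple polygon with `n ≥ 3` vertices can be carried to a regular polygon by finitely many
vertex-centroid moves.
(2) The same holds for every `n`-tuple of points that does not lie on a line.
(3) For `n ≥ 4` every `n`-tuple of points that does not lie on a line can be carried to a translate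
of any other prescribed `n`-tuple that does not lie on a line. -/
theorem result :
    (∀ n : ℕ, 3 ≤ n → ∀ v : Fin n → ℂ, IsSimple v →
      ∃ w, ReflTransGen IsMove v w ∧ IsRegular w) ∧
    (∀ n : ℕ, 3 ≤ n → ∀ v : Fin n → ℂ, ¬ Collinear ℝ (Set.range v) →
      ∃ w, ReflTransGen IsMove v w ∧ IsRegular w) ∧
    (∀ n : ℕ, 4 ≤ n → ∀ v u : Fin n → ℂ, ¬ Collinear ℝ (Set.range v) →
      ¬ Collinear ℝ (Set.range u) → ∃ (w : Fin n → ℂ) (τ : ℂ), ReflTransGen IsMove v w ∧
        ∀ k, w k = u k + τ) := by
  refine ⟨fun n hn v hv => main hn v (not_collinear_of_simple hn v hv),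
    fun n hn v hv => main hn v hv, ?_⟩
  intro n hn v u hv hu
  obtain ⟨w, hw, hc⟩ := simulate (by omega) v (cent u)
    (connect (by simpa using hn) _ _ (sum_cent (by omega) v) (sum_cent (by omega) u)
      (rk_of_not_collinear v hv) (rk_of_not_collinear u hu))
  refine ⟨w, centroid w - centroid u, hw, fun k => ?_⟩
  rw [centroid_of_cent w _ hc k]
  unfold cent
  ring

end Pool.Agent.Results.MP_06c496_co.ReachRegular
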